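import Pool.Agent.helper87.AU.SpecQ2

/-!
# Project au, module QF1: the jump of an automorphism at a fixed place
-/

namespace Pool.Agent.helper53.AU

open scoped Classical IntermediateField
open IntermediateField (fixedField)

noncomputable section

variable {k F : Type} [Field k] [Field F] [Algebra k F]

/-- if `s t - t` has order at least `n` then so has `s f - f` for every regular `f` -/
theorem QF1_reg (hV : ∀ (P : Place k F) (f : F), P.Ge 0 f → ∃ c : k, P.Ge 1 (f - algebraMap k F c))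
    {P : Place k F} {s : F ≃ₐ[k] F} (hs : s • P = P) (n : ℕ)
    (ht : P.Ge (n : ℤ) (s P.unif - P.unif)) : ∀ f : F, P.Ge 0 f → P.Ge (n : ℤ) (s f - f) := by
  induction n with
  | zero =>
    intro f hf
    exact ((ge_apply_of_smul_eq hs 0 f).mpr hf).sub hf
  | succ n ih =>
    intro f hf
    have hn : P.Ge (n : ℤ) (s P.unif - P.unif) := ht.mono (by push_cast; omega)
    obtain ⟨c, hc⟩ := hV P f hf
    have hu := P.unif_spec
    set t := P.unif with htdef
    obtain ⟨hu0, hu1⟩ := hu
    set h : F := (f - algebraMap k F c) * t⁻¹ with hh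
    have hhge : P.Ge 0 h := by
      have h1 : P.Ge (-1) t⁻¹ := Or.inr (by rw [P.ord_inv hu0, hu1])
      simpa using hc.mul h1
    have hf' : f = algebraMap k F c + t * h := by
      rw [hh]; field_simp; ring
    have hst1 : P.Ge 1 (s t) := Or.inr (by rw [ord_apply_of_smul_eq hs, hu1])
    have e : s f - f = s t * (s h - h) + (s t - t) * h := by
      rw [hf']
      simp only [map_add, map_mul, AlgEquiv.commutes]
      ring
    rw [e]
    refine Place.Ge.add ?_ ?_
    · have h2 := hst1.mul (ih hn h hhge)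
      refine h2.mono (by push_cast; omega)
    · have h2 := ht.mul hhge
      refine h2.mono (by push_cast; omega)

theorem QF1_ne (hV : ∀ (P : Place k F) (f : F), P.Ge 0 f → ∃ c : k, P.Ge 1 (f - algebraMap k F c))
    {P : Place k F} {s : F ≃ₐ[k] F} (hs : s • P = P) (h1 : s ≠ 1) : s P.unif - P.unif ≠ 0 := by
  intro h0
  apply h1
  have hreg : ∀ f : F, P.Ge 0 f → s f = f := by
    intro f hf
    by_contra hne
    have hne' : s f - f ≠ 0 := sub_ne_zero.mpr hne
    have h2 := QF1_reg hV hs ((P.ord (s f - f)).toNat + 1) (Or.inl h0) f hf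
    have h3 := h2.le hne'
    have h4 := Int.self_le_toNat (P.ord (s f - f))
    push_cast at h3
    omega
  ext f
  rw [AlgEquiv.one_apply]
  by_cases hf : P.Ge 0 f
  · exact hreg f hf
  · have hf0 : f ≠ 0 := by
      intro h; exact hf (Or.inl h)
    have hinv : P.Ge 0 f⁻¹ := by
      right
      rw [P.ord_inv hf0]
      have : ¬ (0 ≤ P.ord f) := fun h => hf (Or.inr h)
      omega
    have h2 := hreg f⁻¹ hinv
    rw [map_inv₀] at h2
    exact inv_injective h2

theorem QF1_jump (hV : ∀ (P : Place k F) (f : F), P.Ge 0 f → ∃ c : k, P.Ge 1 (f - algebraMap k F c))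
    {P : Place k F} {s : F ≃ₐ[k] F} (hs : s • P = P) (h1 : s ≠ 1) :
    P.ord (s P.unif - P.unif) = (P.jump s : ℤ) + 1 := by
  have hne := QF1_ne hV hs h1
  have hge : P.Ge 1 (s P.unif - P.unif) := by
    have h2 : P.Ge 1 (s P.unif) := Or.inr (by rw [ord_apply_of_smul_eq hs, P.unif_spec.2])
    have h3 : P.Ge 1 P.unif := Or.inr (by rw [P.unif_spec.2])
    exact h2.sub h3
  have h4 := hge.le hne
  unfold Place.jump
  rw [Int.toNat_of_nonneg (by omega)]
  ring

/-- powers of the uniformiser -/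
theorem QF1_pow {P : Place k F} {s : F ≃ₐ[k] F} (hs : s • P = P) {t : F} (ht : P.Unif t) (i : ℕ)
    (h : P.Ge ((i : ℤ) + 1) (s t - t)) (n : ℕ) :
    P.Ge ((n : ℤ) + i) ((s t) ^ n - t ^ n) := by
  induction n with
  | zero => left; simp
  | succ n ih =>
    have e : (s t) ^ (n + 1) - t ^ (n + 1) = s t * ((s t) ^ n - t ^ n) + (s t - t) * t ^ n := by
      ring
    rw [e]
    have h1 : P.Ge 1 (s t) := Or.inr (by rw [ord_apply_of_smul_eq hs, ht.2])
    have h2 : P.Ge (n : ℤ) (t ^ n) := Or.inr (by rw [P.ord_pow ht.1, ht.2]; simp)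
    refine Place.Ge.add ?_ ?_
    · exact (h1.mul ih).mono (by push_cast; omega)
    · exact (h.mul h2).mono (by push_cast; omega)

theorem QF1_zpow {P : Place k F} {s : F ≃ₐ[k] F} (hs : s • P = P) {t : F} (ht : P.Unif t) (i : ℕ)
    (h : P.Ge ((i : ℤ) + 1) (s t - t)) (m : ℤ) :
    P.Ge (m + i) ((s t) ^ m - t ^ m) := by
  have hst0 : s t ≠ 0 := by simpa using ht.1
  have hst1 : P.ord (s t) = 1 := by rw [ord_apply_of_smul_eq hs, ht.2]
  obtain ⟨n, rfl | rfl⟩ := m.eq_nat_or_neg
  · simpa using QF1_pow hs ht i h n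
  · have e : (s t) ^ (-(n : ℤ)) - t ^ (-(n : ℤ)) =
        -((s t) ^ n - t ^ n) * ((s t) ^ n * t ^ n)⁻¹ := by
      rw [zpow_neg, zpow_neg, zpow_natCast, zpow_natCast]
      have h3 : (s t) ^ n ≠ 0 := pow_ne_zero n hst0
      have h4 : t ^ n ≠ 0 := pow_ne_zero n ht.1
      field_simp
      ring
    rw [e]
    have h5 : P.Ge (-(2 * (n : ℤ))) ((s t) ^ n * t ^ n)⁻¹ := by
      right
      rw [P.ord_inv (mul_ne_zero (pow_ne_zero n hst0) (pow_ne_zero n ht.1)),
        P.ord_mul _ _ (pow_ne_zero n hst0) (pow_ne_zero n ht.1), P.ord_pow hst0,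
        P.ord_pow ht.1, hst1, ht.2]
      omega
    exact ((QF1_pow hs ht i h n).neg.mul h5).mono (by omega)

theorem QF1 (h : QV1_stmt) : QF1_stmt := by
  intro k F _ _ _ _ hFF P s hs hs1
  have hV : ∀ (P : Place k F) (f : F), P.Ge 0 f → ∃ c : k, P.Ge 1 (f - algebraMap k F c) :=
    fun P f hf => h k F hFF P f hf
  have hj := QF1_jump hV hs hs1
  have hne := QF1_ne hV hs hs1
  have hge : P.Ge ((P.jump s : ℤ) + 1) (s P.unif - P.unif) := Or.inr hj.ge
  have hreg : ∀ f : F, P.Ge 0 f → P.Ge ((P.jump s : ℤ) + 1) (s f - f) := by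
    intro f hf
    have := QF1_reg hV hs (P.jump s + 1) (by push_cast; exact hge) f hf
    push_cast at this
    exact this
  constructor
  · intro t' ht'
    have hu := P.unif_spec
    set v : F := t' * P.unif⁻¹ with hv
    have hv0 : v ≠ 0 := mul_ne_zero ht'.1 (inv_ne_zero hu.1)
    have hvord : P.ord v = 0 := by
      rw [hv, P.ord_mul _ _ ht'.1 (inv_ne_zero hu.1), P.ord_inv hu.1, ht'.2, hu.2]; norm_num
    have et : t' = P.unif * v := by
      rw [hv]
      have := hu.1
      field_simp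
    have e : s t' - t' = (s P.unif - P.unif) * s v + P.unif * (s v - v) := by
      rw [et, map_mul]; ring
    have hsv0 : s v ≠ 0 := by simpa using hv0
    have h1 : P.ord ((s P.unif - P.unif) * s v) = (P.jump s : ℤ) + 1 := by
      rw [P.ord_mul _ _ hne hsv0, hj, ord_apply_of_smul_eq hs, hvord]; ring
    have h2 : P.Ge (P.ord ((s P.unif - P.unif) * s v) + 1) (P.unif * (s v - v)) := by
      have h3 : P.Ge 1 P.unif := Or.inr hu.2.ge
      rw [h1]
      exact (h3.mul (hreg v (Or.inr hvord.ge))).mono (by omega)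
    obtain ⟨h4, h5⟩ := Place.ord_add_eq (mul_ne_zero hne hsv0) h2
    rw [e]
    exact ⟨h4, by rw [h5, h1]⟩
  · intro m f hf
    have hu := P.unif_spec
    have hsu0 : s P.unif ≠ 0 := by simpa using hu.1
    set t := P.unif with htdef
    set v : F := f * (t ^ m)⁻¹ with hv
    have htm : t ^ m ≠ 0 := zpow_ne_zero m hu.1
    have htmord : P.ord (t ^ m) = m := by rw [P.ord_zpow hu.1, hu.2]; ring
    have hvge : P.Ge 0 v := by
      have h1 : P.Ge (-m) (t ^ m)⁻¹ := Or.inr (by rw [P.ord_inv htm, htmord])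
      simpa using hf.mul h1
    have ef : f = t ^ m * v := by
      rw [hv]; field_simp
    have e : s f - f = (s t) ^ m * (s v - v) + ((s t) ^ m - t ^ m) * v := by
      rw [ef, map_mul, map_zpow₀]; ring
    rw [e]
    have h1 : P.Ge m ((s t) ^ m) := Or.inr (by
      rw [P.ord_zpow hsu0, ord_apply_of_smul_eq hs, hu.2]; simp)
    refine Place.Ge.add ?_ ?_
    · exact (h1.mul (hreg v hvge)).mono (by omega)
    · exact ((QF1_zpow hs hu (P.jump s) hge m).mul hvge).mono (by omega)

end

end Pool.Agent.helper53.AU
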